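import Mathlib
import Pool.Agent.Q303.CB.Times

/-!
# The crystalline Tate conjecture for the products of all varieties with abelian varieties of almost
all slope types of all CM fields

Let `K i` (`i` in a finite set) be CM fields of degree `2 g i`. Nothing is assumed about their Galois
groups. They are pairwise independent: for `i ≠ k` and all complex embeddings `φ` of `K i` and `ψ` of
`K k` some automorphism of `ℂ` is the identity on `φ (K i)` and the complex conjugation on `ψ (K k)`
(this is no condition if there is only one field). We fix an isomorphism `ν` of the algebraic closure
of `ℚ_p` with `ℂ`; it defines a `p`-adic valuation of `ℂ`, with the value one at `p`. Let `M i` be a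
function with nonzero integral values, all of which divide `n i`, on the complex embeddings of
`K i`, invariant under complex conjugation. A CM type `Φ i` of `K i` (a choice of one element out of
each complex conjugate pair of embeddings; there are `2 ^ (g i)` types), `M i` and a real number
`κ ≠ 0` prescribe the slopes `(a + κ M) / 2` (at the embeddings in `Φ i`) and `(a - κ M) / 2` (outside
of `Φ i`) of a Weil number for `p ^ a` in `K i` (`HasType`). The case `M = 1`, `κ = a` is the case of
ordinary abelian varieties; the assumption on `M` says that `a / 2` is not a slope.

There are `2 ^ (∑ i, g i)` families of CM types `Φ i` of the fields `K i`. A family is exceptional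
(`exceptionalFamilies ν K M`) if the following statement (`Holds`) is false for it. Let `π i` be Weil
numbers for `q = p ^ a` that generate the fields `K i` and have the slope types `Φ i`, `M i`, and let
`f i` be monic polynomials whose complex roots are conjugates of `π i` (`IsPolyOf`), for instance the
characteristic polynomials of Frobenius of the abelian varieties in the isogeny classes of the `π i`
over the field with `q` elements. Let `A` be an abelian variety over the field `k` with `Q = q ^ s`
elements which is isogenous to a product of powers of abelian varieties coming from the field with
`q` elements, with characteristic polynomials `f i`, and let `Z` be **any** smooth projective variety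
over `k` such that the eigenvalues `ρ` of Frobenius on the cohomology of `Z` and their conjugates are
unrelated to the fields `K i` (`UnrelatedTo`): a function `n` on the complex embeddings of `K i` with
`n (conj φ) = - n φ` which is invariant under all automorphisms of `ℂ` that fix a power of `ρ` is
zero. This is so if for each embedding `ψ` of `K i` some automorphism which fixes a power of `ρ` is
the complex conjugation on `ψ (K i)`: for instance, if a power of `ρ` lies in a field linearly
disjoint from the normal closures of the `K i`, or in a totally real field.

The cohomology `H` is any Weil cohomology theory with coefficients in **any** field `K₀` of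
characteristic zero: in the intended use, **crystalline cohomology**, where `K₀` is the fraction field
of the ring of Witt vectors of `k`, which is not algebraically closed. The pull-back along the
Frobenius endomorphism of a variety relative to `k` is the `K₀`-linear Frobenius `Fr` (the power of the
semilinear Frobenius `Fr_p`), so that the Tate conjecture for `X` in codimension `c` (`TateIn`) says
that all `x` in `H ^ (2 c) (X)` with `Fr x = Q ^ c x` are `K₀`-linear combinations of classes of
algebraic cycles. The properties of `A` and `Z` described above (for instance, the eigenvectors of
Frobenius span the first cohomology group of `A`) are formulated for the theory `ext H Ω` whose groups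
are the `Ω ⊗ H(X)`, `Ω` an algebraically closed field containing `K₀` (`IsPair`). Among them is the
theorem of Tate on divisors on abelian varieties, in its crystalline form.

Then for every `c` **the crystalline Tate conjecture holds for `A × Z` in codimension `c` if and only
if it holds for `Z` in the codimensions `c - i`, `0 ≤ i ≤ dim A`**. The same is true for the
crystalline Tate conjecture together with the semisimplicity of the eigenvalue `Q ^ c`: all
`x` in `H ^ (2 c)` killed by a power of `Fr - Q ^ c` are `K₀`-linear combinations of classes of cycles.
As all `s` are allowed, this holds simultaneously over all finite extensions of the ground field. If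
`Z` is a point it is the crystalline Tate conjecture for `A` in all codimensions. It holds for
instance for `A × Z` if `Z` is a variety of dimension at most three for which the `ℓ`-adic conjecture
of Tate is known (K3 surfaces, products of curves and so on; for these it is equivalent to the
crystalline one).

The framework (`TheoryData`, `IsChow`, `IsWeil`) is the one of helper492: the Chow groups `C` with
their pull-backs, push-forwards and products, and a Weil cohomology theory `H`, on a class `𝒱` of
smooth proper varieties over `k`.

The theorem bounds the number of the exceptional families: it is at most
`2 ^ (∑ i, g i) * ∑ i, C * (n i) ^ 2 * (1 + log (2 g i)) ^ 16 * min (N ^ 2 * D ^ (1 / 4) / √g, √g / q)`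
with an absolute constant `C`. Here, for `K = K i` and `g = g i`, `N` is the number of the CM subfields
of `K` (with `K`), `D = D i ≥ 1` is a bound for the degrees of the CM subfields of `K` that are normal
over `ℚ` with a nonabelian Galois group, and `q = q i` is any prime factor of `g` (or `q = 1`). So the
exceptional types are a proportion `O (n ^ 2 * g ^ (-1 / 4) * (log g) ^ 16)` of all types of all CM
fields with a bounded number of CM subfields, `O (n ^ 2 * g ^ (-1 / 2) * (log g) ^ 16)` if the normal
nonabelian ones have bounded degrees, and `O (n ^ 2 * g ^ (-δ) * (log g) ^ 16)` for all CM fields, with
any number of subfields, whose degree is divisible by a prime number `q ≥ g ^ (1 / 2 + δ)`. Some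
assumption is necessary: almost all types of a multiquadratic CM field are degenerate. The counting
part (the bound for the number of the degenerate types) is the one of `AllCMFields` (MP_e12fcd_ag), by
helper1 and others of this team, and the relations with the eigenvalues of `Z` are those of
`AllCMTypesTimes` (MP_0f183b_ag).

The proof. The extension of the coefficients of a Weil cohomology theory from `K₀` to `Ω` is a Weil
cohomology theory (`ext_isWeil`); the spaces of the (generalized) eigenvectors of `Fr` for the
eigenvalue `Q ^ c` and the span of the classes of cycles are compatible with the extension, so that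
the Tate conjecture over `Ω` is equivalent to the one over `K₀` (`tateIn_ext`). Over `Ω`, suppose that
the product of `ρ` and of some eigenvalues `φ (π i)` of `A`, no two of them complex conjugate, is a
power of `q`, up to a root of unity. For an automorphism `σ` of `ℂ` the `p`-adic valuations of the
images under `σ` give a linear relation between the signed weights `± M i (σ φ)`. It does not change
on its right side if `σ` is multiplied by an automorphism `τ` which fixes a power of `ρ`. The
difference of the two relations is homogeneous; if the types are not degenerate it is trivial, so that
the differences of the exponents of complex conjugate embeddings are invariant under `τ`. So they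
are zero, as `ρ` is unrelated to the fields `K i`.
-/

set_option autoImplicit false

namespace Pool.Agent.Results.MP_60ec62_ag.AllCMTypesTimes

open NumberField Module Pool.Agent.H204R3.CM Pool.Agent.H977R3.CM Pool.Agent.TH170
  Pool.Agent.Y1.KN Pool.Agent.Y1.CT Pool.Agent.Q64.CT Pool.Agent.Q303.CB

/-- The reduction of the crystalline Tate conjecture for `A × Z` to the one for `Z` holds for all
abelian varieties `A` whose Frobenius eigenvalues are powers of conjugates of Weil numbers with the
slope types `Φ i`, `M i`, and all `Z` unrelated to the fields `K i`. -/
def Holds {p : ℕ} [Fact p.Prime] (ν : PadicAlgCl p ≃+* ℂ) {I : Type} (K : I → Type)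
    [∀ i, Field (K i)] [∀ i, NumberField (K i)] [∀ i, IsCMField (K i)]
    (M : ∀ i, (K i →+* ℂ) → ℤ) (Φ : ∀ i, Set (K i →+* ℂ)) : Prop :=
  ForAllTypes ν K M (CrysTateTimes K) Φ

/-- The exceptional families of CM types. -/
def exceptionalFamilies {p : ℕ} [Fact p.Prime] (ν : PadicAlgCl p ≃+* ℂ) {I : Type} (K : I → Type)
    [∀ i, Field (K i)] [∀ i, NumberField (K i)] [∀ i, IsCMField (K i)]
    (M : ∀ i, (K i →+* ℂ) → ℤ) : Set (∀ i, Set (K i →+* ℂ)) :=
  {Φ | (∀ i, IsCMType (Φ i)) ∧ ¬ Holds ν K M Φ}

/-- **The crystalline Tate conjecture for `A × Z` in codimension `c` is equivalent to the one for `Z`
in the codimensions `c - i`, `0 ≤ i ≤ dim A`, for the abelian varieties `A` of almost all slope types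
of all CM fields and all unrelated varieties `Z`.** -/
theorem result :
    ∃ C : ℝ, 0 ≤ C ∧ ∀ (p : ℕ) [Fact p.Prime] (ν : PadicAlgCl p ≃+* ℂ) (I : Type) [Fintype I]
      (K : I → Type) [∀ i, Field (K i)] [∀ i, NumberField (K i)] [∀ i, IsCMField (K i)]
      (M : ∀ i, (K i →+* ℂ) → ℤ) (n g q : I → ℕ) (D : I → ℝ), PairwiseIndep K →
      (∀ i φ, M i (ComplexEmbedding.conjugate φ) = M i φ) → (∀ i, n i ≠ 0) →
      (∀ i φ, M i φ ∣ (n i : ℤ)) → (∀ i, finrank ℚ (K i) = 2 * g i) →
      (∀ i, q i ∣ g i ∧ (q i = 1 ∨ (q i).Prime)) → (∀ i, 1 ≤ D i) →
      (∀ (i : I) (L : IntermediateField ℚ (K i)), IsCMField L → IsGalois ℚ L →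
        ¬ IsAbelianGalois ℚ L → (finrank ℚ L : ℝ) ≤ D i) →
      ((exceptionalFamilies ν K M).ncard : ℝ) ≤
        2 ^ (∑ i, g i) * ∑ i, C * (n i : ℝ) ^ 2 * ((1 + Real.log (2 * g i)) ^ 16 *
          min ((numCMSubfields (K i) : ℝ) ^ 2 * D i ^ (1 / 4 : ℝ) / √(g i)) (√(g i) / q i)) := by
  obtain ⟨C, hC0, hC⟩ := count
  refine ⟨C, hC0, ?_⟩
  intro p _ ν I _ K _ _ _ M n g q D hind hM hn hMn hg hq hD hDF
  exact hC p ν I K M n g q D hind hM hn hMn hg hq hD hDF _
    (fun Q f hQ hR => crysTateTimes (tateTimes hQ hR))

end Pool.Agent.Results.MP_60ec62_ag.AllCMTypesTimes
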