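import Mathlib
import Pool.Agent.Q303.CB.Rank

/-!
# The crystalline Tate conjecture for the products of all varieties with almost all abelian varieties

Let `g i` (`i` in a finite set `I`) be positive integers, `r` an integer smaller than all the `g i`
and `E` a number field.  For a prime power `q` let `S i` be the set of the characteristic
polynomials of Frobenius of the ordinary abelian varieties of dimension `g i` over the field with
`q` elements, or of all abelian varieties of dimension `g i`, or any set in between.  By Weil, Honda
and Tate its elements correspond to the isogeny classes, the first set contains `ordinaryWeilPolys q
(g i)`, and the second one is contained in `weilPolys q (g i)`.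

For all families `f i` in `S i` with the exception of a proportion `O (q ^ (-1 / 6) log q)`, the
constant depending only on `g` and `E`, the following holds for all `s > 0`, `Q = q ^ s`, all
abelian varieties `A` over the field `k` with `Q` elements which are isogenous to products of powers
of abelian varieties coming from the field with `q` elements, with characteristic polynomials `f i`,
and **all** smooth projective varieties `Z` over `k` such that the eigenvalues of Frobenius on the
cohomology of `Z` and their conjugates generate a group of rank at most `r` modulo the group of the
numbers with a power in `E` (`EigenvaluesOfRank`).

The cohomology `H` is any Weil cohomology theory with coefficients in **any** field `K₀` of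
characteristic zero: in the intended use, **crystalline cohomology**, where `K₀` is the fraction field
of the ring of Witt vectors of `k`, which is not algebraically closed. The pull-back along the
Frobenius endomorphism of a variety relative to `k` is the `K₀`-linear Frobenius `Fr` (the power of the
semilinear Frobenius `Fr_p`), so that the Tate conjecture for `X` in codimension `c` (`TateIn`) says
that all `x` in `H ^ (2 c) (X)` with `Fr x = Q ^ c x` are `K₀`-linear combinations of classes of
algebraic cycles. The properties of `A` and `Z` described above are formulated for the theory
`ext H Ω` whose groups are the `Ω ⊗ H(X)`, `Ω` an algebraically closed field containing `K₀`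
(`IsRankPair`). Among them is the theorem of Tate on divisors on abelian varieties, in its
crystalline form.

Then for every `c` **the crystalline Tate conjecture holds for `A × Z` in codimension `c` if and only
if it holds for `Z` in the codimensions `c - i`, `0 ≤ i ≤ dim A`**. The same is true for the
crystalline Tate conjecture together with the semisimplicity of the eigenvalue `Q ^ c`: all `x` in
`H ^ (2 c)` killed by a power of `Fr - Q ^ c` are `K₀`-linear combinations of classes of cycles. As
all `s` are allowed, this holds simultaneously over all finite extensions of the ground field. If
`Z` is a point it is the crystalline Tate conjecture for `A` in all codimensions.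

For `r = 0` the assumption on the eigenvalues is: the eigenvalues of Frobenius and their conjugates
have powers in `E`. If for instance `Z` is any given variety over the field with `q'` elements (a
product of K3 surfaces and curves, say), one can take for `E` the field generated by the eigenvalues
of Frobenius and their conjugates, and applies the theorem to the powers `q` of `q'`. For varieties
`Z` of dimension at most three for which the `ℓ`-adic conjecture of Tate is known, the crystalline
one is known, and the theorem gives it for `A × Z` in all codimensions.

The framework (`TheoryData`, `IsChow`, `IsWeil`) is the one of helper492: the Chow groups `C` with
their pull-backs, push-forwards and products, and a Weil cohomology theory `H`, on a class `𝒱` of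
smooth proper varieties over `k`.

The idea of the proof: by a sieve (helper521), which only uses the primes that split completely in
the Galois closure of `E` - these have positive density by the theorem of Chebotarev, formalized by
helper401 - almost all families are such that each pair `α`, `q / α` of roots can be exchanged by a
Galois automorphism which fixes all the other roots of all the `f i` and also all elements of `E`.
It follows that the generalized eigenvectors of Frobenius in `Ω ⊗ H(A × Z)` for the eigenvalues
`Q ^ i` are sums of products of classes of products of divisors on `A` and of classes on `Z`. The
extension of the coefficients of a Weil cohomology theory from `K₀` to `Ω` is a Weil cohomology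
theory (`ext_isWeil`); the spaces of the (generalized) eigenvectors of `Fr` and the span of the
classes of cycles are compatible with the extension, so that the Tate conjecture over `Ω` is
equivalent to the one over `K₀` (`tateIn_ext`).
-/

set_option autoImplicit false

namespace Pool.Agent.Results.MP_60ec62_ag.AlmostAllTimes

open Polynomial Pool.Agent.W521.Descent Pool.Agent.W521.Count Pool.Agent.W484.TB
  Pool.Agent.W484.CK Pool.Agent.Q303.CB

/-- `weilPolys q g` is the set of monic integral polynomials of degree `2 g` with constant term
`q ^ g` and all roots of absolute value `√q`; `ordinaryWeilPolys q g` is the subset of those
whose coefficient of index `g` is prime to `q`. -/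
theorem result {I : Type} [Fintype I] (g : I → ℕ) (r : ℕ) (hr : ∀ i, r < g i)
    (E : IntermediateField ℚ ℂ) [FiniteDimensional ℚ E] :
    ∃ C : ℝ, ∀ q : ℕ, IsPrimePow q → ∀ S : I → Set ℤ[X],
      (∀ i, ordinaryWeilPolys q (g i) ⊆ S i ∧ S i ⊆ weilPolys q (g i)) →
      (∀ i, (S i).Finite ∧ (S i).Nonempty) ∧
      ({f : I → ℤ[X] | (∀ i, f i ∈ S i) ∧ ¬ CrysTateForRank E r q f}.ncard : ℝ) ≤
        C * (Real.log q * (q : ℝ) ^ (-(1 / 6) : ℝ)) * ∏ i, ((S i).ncard : ℝ) :=
  Pool.Agent.Q64.CT.countA g r hr E _ fun _ hq x hx => crysTateForRank g E hq r hr x hx

end Pool.Agent.Results.MP_60ec62_ag.AlmostAllTimes
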