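import Mathlib
import Pool.Agent.Q303.CB.KThree

/-!
# The crystalline Tate conjecture for all products of varieties of K3 type

We consider smooth projective varieties over an algebraic closure `k` of the field with `p` elements;
each variety `X` has a model over the field with `q = p ^ (Φ.e X)` elements, with Frobenius endomorphism
`Φ.Fr X` (`FrobSystem`). The cohomology groups `H(X)` have coefficients in an algebraically closed field
`K = W.K`, and they are the extensions of groups `H₀(X)` with coefficients in **any** subfield `K₀` of
`K`, stable under Frobenius and containing the classes of cycles (`IsForm`). In the intended use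
`H₀(X)` is the **crystalline cohomology** of `X`, `K₀` is the fraction field of the ring of Witt vectors of
`k` (not algebraically closed), `K` is an algebraic closure of `K₀`, and the endomorphism given by
`Φ.Fr X` is the extension of the linear Frobenius `Fr = Fr_p ^ (Φ.e X)` on the crystalline cohomology of
the model. `CrysSemisimpleTateIn` says that the classes `x` in
`H₀^(2 c)(X)` killed by a power of `Fr ^ s - q ^ (s c)` for some `s > 0`, in particular those with
`Fr ^ s x = q ^ (s c) x`, are linear combinations of the classes of algebraic cycles, with coefficients
in `K₀`: it is the crystalline Tate conjecture for the model over all finite extensions of the ground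
field, together with the semisimplicity of the eigenvalue `q ^ c`.

Let `X 1, …, X r` be such varieties. We suppose that `H(X i)` is spanned over `K` by classes of
algebraic cycles and by eigenvectors of the Frobenius endomorphism in the middle degree, with
eigenvalues which are, up to roots of unity, `q ^ (dim / 2)` times `e`-th roots of the conjugates of a
number `α i` in a CM field `E i` (`IsSpannedByNumber`), for example K3 surfaces and cubic fourfolds of
finite height, and ordinary elliptic curves. If the eigenvalues have multiplicity one (`OnLine`),
nothing is assumed about products of the `X i`. If not, we assume the Tate conjecture for `X i × X i`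
in one codimension (for K3 surfaces this is a theorem of Ito, Ito and Koshikawa).

The number `α i` is assumed to be *free* (`IsFreeNumber`): the local degree of the place with positive
slope is odd and `[E i : ℚ] = 2 d` with `d ≤ 11`, up to four exceptional pairs; or this local degree is
at most two or `d` is prime, and no norm of `α i` to a proper CM subfield is a root of unity; or the
Galois group of `E i` contains all changes of sign.

Let `Z` be a product, with any bracketing, of `n i` copies of `X i` for all `i` and of varieties all of
whose cohomology is algebraic (for different `i` the fields are supposed to be independent, `hE`). Then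
**the crystalline Tate conjecture and the semisimplicity of the eigenvalue `q ^ c` hold for `Z` in
all codimensions `c`** (for example for all products, of any dimension, of K3 surfaces as above).

The version for algebraically closed coefficient fields is `MP_021685_ag.ProductsOfKThreeType`. New
here is the descent to the coefficient field `K₀` (`crysSemisimple_of`): a class in `H₀(X)` which is a
linear combination of classes of cycles with coefficients in `K` is one with coefficients in `K₀`.
-/

set_option autoImplicit false

open CategoryTheory AlgebraicGeometry NumberField

universe u v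

namespace Pool.Agent.Results.MP_60ec62_ag.ProductsOfKThreeType

open Pool.Agent.H914 Pool.Agent.H914.VarClass Pool.Agent.H914.VarClass.Obj
  Pool.Agent.H914.WeilCohomology Pool.Agent.W534 Pool.Agent.W517.K3 Pool.Agent.Y138.KC
  Pool.Agent.TH121.KT Pool.Agent.TH132.A Pool.Agent.Y103.Hk Pool.Agent.Y103.Sh Pool.Agent.Y103.Sq
  Pool.Agent.Q303.CB

/-- **The crystalline Tate conjecture for all products of varieties of K3 type**, with coefficients
in the field `K₀`. -/
theorem result {k : Type u} [Field k] {𝒱 : VarClass k} {ops : CycleOps 𝒱}
    (W : WeilCohomology.{u, v} ops) [IsAlgClosed W.K] (p : ℕ) [Fact p.Prime]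
    (Φ : FrobSystem W p) (K₀ : Subfield W.K) (H₀ : ∀ X : 𝒱.Obj, Set (W.H X))
    (hH₀ : IsForm Φ K₀ H₀) (ι : AlgebraicClosure ℚ →+* PadicAlgCl p)
    (r : ℕ) (X : Fin r → 𝒱.Obj) (E : Fin r → Type) [∀ i, Field (E i)] [∀ i, NumberField (E i)]
    [∀ i, IsCMField (E i)] (e : Fin r → ℕ) (α : ∀ i, E i)
    (hα : ∀ i, IsFreeNumber ι (α i)) (hX : ∀ i, IsSpannedByNumber Φ (X i) (e i) (α i))
    (hX2 : ∀ i, (∀ σ, OnLine W.K (letters Φ (X i) (e i) (α i) σ)) ∨ TateSquare Φ (X i))
    (n : Fin r → ℕ) (Z : 𝒱.Obj) (hZ : IsProductOfCopies W X n Z)
    (L₀ : Fin r → IntermediateField ℚ (AlgebraicClosure ℚ))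
    (hL₀ : ∀ i, IsStable (L₀ i) ∧ SmallIntersection (E i) (L₀ i) (n i))
    (hE : ∀ i j, i < j → IsAllowed (E i) (L₀ i) (galoisClosure (E j))) (c : ℕ) :
    CrysSemisimpleTateIn Φ K₀ H₀ Z c :=
  crysSemisimple_of hH₀ ((kthree W p Φ ι r X E e α hα hX hX2 n Z hZ ∅ L₀ hL₀
    (fun _ _ h => h.elim) hE).1 c)

end Pool.Agent.Results.MP_60ec62_ag.ProductsOfKThreeType
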