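import Mathlib
import Pool.Agent.Q303.CB.Slope

/-!
# The crystalline Tate conjecture for the products of abelian varieties with varieties whose
crystalline slopes have a small mean square deviation

Let `q = p ^ a` and let `A` be an abelian variety, of any dimension, over the field `k` with `q`
elements, isogenous to a product of powers of abelian varieties with characteristic polynomials of
Frobenius `f i` (`i` in a finite set), the complex roots of `f i` being the conjugates of a Weil
number `π i` for `q` in a CM field `F i` (`IsPolyOf`). We suppose (the generic case; the first
condition is true, for example, if the Galois group of the normal closure of `F i` consists of all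
permutations of the embeddings compatible with the complex conjugation, or if only some
automorphism exchanges one embedding with its complex conjugate and fixes all the others):

* the functions `n` on the complex embeddings of `F i` with `n (conj φ) = - n φ` are an absolutely
  irreducible representation of the automorphisms of `ℂ` (`OddAbsolutelyIrreducible`), and there
  are no equivariant maps between those of `F i` and `F i'` for `i ≠ i'` (`Unrelated`);
* no `π i` is supersingular (`HasOtherSlope`).

Let `Z` be **any** smooth projective variety over `k`. For an eigenvalue `α` of the linear Frobenius
on the crystalline cohomology of `Z` of weight `w` (`|α| = q ^ (w / 2)`) let `d (α)` be the mean of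
`(s - w / 2) ^ 2` over the slopes `s` of all `p`-adic conjugates of `α` (`deviation`, up to the factor
`(log q) ^ 2`), and similarly `d (π i)` with `w = 1`; so `d (π i) = 1 / 4` if `π i` is ordinary (second
part of the theorem). We suppose (`GoodRoots`) that for all eigenvalues `α` and all `i`

* `α` is unrelated to `F i` (`UnrelatedTo`: a function `n` as above on the embeddings of `F i`
  which is invariant under all automorphisms of `ℂ` that fix a power of `α` is zero), **or**
* `d (α) < d (π i)`, **or**
* the weight of `α` is even and `d (α) < d (π i) + d (π i')` for all `i'` (`SmallDeviation`).

The cohomology `H` is any Weil cohomology theory with coefficients in **any** field `K₀` of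
characteristic zero: in the intended use, **crystalline cohomology**, where `K₀` is the fraction field
of the ring of Witt vectors of `k`, which is not algebraically closed. The pull-back along the
Frobenius endomorphism of a variety relative to `k` is the `K₀`-linear Frobenius `Fr` (the `a`-th power
of the semilinear Frobenius `Fr_p`), so that the Tate conjecture for `X` in codimension `c` (`TateIn`)
says that all `x` in `H ^ (2 c) (X)` with `Fr x = q ^ c x` are `K₀`-linear combinations of classes of
algebraic cycles. The properties of `A` and `Z` described above are formulated for the theory
`ext H Ω` whose groups are the `Ω ⊗ H(X)`, `Ω` an algebraically closed field containing `K₀`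
(`IsPairFor`). Among them is the theorem of Tate on divisors on abelian varieties, in its
crystalline form.

Then (`CrysTateFor`) for every `c` **the crystalline Tate conjecture holds for `A × Z` in codimension
`c` if and only if it holds for `Z` in the codimensions `c - i`, `0 ≤ i ≤ dim A`**, and the same is
true for the crystalline Tate conjecture together with the semisimplicity of the eigenvalue `q ^ c`
(all `x` in `H ^ (2 c)` killed by a power of `Fr - q ^ c` are `K₀`-linear combinations of classes of
cycles). So the crystalline Tate conjecture holds, in all codimensions, for all `A × Z` where `Z` is,
for example, a K3 surface, or any variety of dimension at most three with the `ℓ`-adic Tate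
conjecture (then the crystalline one is known), with eigenvalues as above. If `Z` is a point it is
the crystalline Tate conjecture for `A`.

Examples, for `A` with ordinary `π i`. The conditions on `α` hold for all `Z` such that the slopes
of the crystalline cohomology `H^(2 v)(Z)` satisfy `|s - v| < 1 / √2` and the odd cohomology vanishes
(or is unrelated to the `F i`, or has slopes with `|s - w / 2| < 1 / 2`). In general they hold for all
`α` of weight `2 v` whose degree over `ℚ` is more than `2 ∑ (s - v) ^ 2`, the sum over all conjugates.
As the Newton polygon of the crystalline cohomology lies above the Hodge polygon (Mazur, Ogus), for
the second cohomology of a surface of geometric genus `g` it suffices that all eigenvalues which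
are not `q` times a root of unity have degree more than `4 g` (more than four for K3 surfaces).
The conditions of this kind do not exclude any relation between the Galois groups of `A` and `Z`:
`ℚ(α)` may be contained in a field `F i`, or in its Galois closure. As `q` and the `π i` are
arbitrary the theorem can be applied over all finite extensions of the ground field.

Relation to the other files of this folder. `AllCMTypesTimes` is the theorem for the abelian
varieties of almost all slope types of all CM fields if all `α` are unrelated to the `F i`; this
is the first alternative above. `AlmostAllTimes` has all `Z` but only the abelian varieties outside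
an unspecified small set of isogeny classes. The slope criterion is the one of
`MP_0f183b_ag.SmallSlopeDeviation` (helper70, this team), there for cohomology theories with
algebraically closed coefficient field; new here is the descent to the field `K₀`.

The proof. The extension of the coefficients of a Weil cohomology theory from `K₀` to `Ω` is a Weil
cohomology theory (`ext_isWeil`); the spaces of the (generalized) eigenvectors of `Fr` and the span
of the classes of cycles are compatible with the extension, so that the Tate conjecture over `Ω` is
equivalent to the one over `K₀` (`tateIn_ext`). Over `Ω`: a multiplicative relation between `α`, a
power of `q` and a product of conjugates of the `π i` gives, for each automorphism `σ` of a Galois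
closure `L`, the linear relation `s (σ α) - w / 2 = ∑ x, n x (s (σ x) - 1 / 2)` between slopes. The
slopes at different pairs `x`, `y` are uncorrelated, by Schur's lemma. Hence
`d (α) = ∑ x, (n x) ^ 2 d (π x)`, so that all `n x` are zero.
-/

set_option autoImplicit false

namespace Pool.Agent.Results.MP_60ec62_ag.SmallSlopeDeviation

open NumberField Module Polynomial IntermediateField Pool.Agent.Y137.MV Pool.Agent.Y137.SL
  Pool.Agent.Y1.CT Pool.Agent.TH170.GS Pool.Agent.TH170 Pool.Agent.Q70.SQ Pool.Agent.Q303.CB

/-- **The crystalline Tate conjecture for `A × Z` in codimension `c` is equivalent to the one for `Z`
in the codimensions `c - i`, `0 ≤ i ≤ dim A`, for the abelian varieties `A` over finite fields with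
absolutely irreducible, unrelated CM fields and no supersingular part, and all varieties `Z` each
of whose Frobenius eigenvalues is unrelated to these fields or has small mean square slope
deviation.** -/
theorem result :
    (∀ (p : ℕ) [Fact p.Prime] (a : ℕ) (I : Type) [Fintype I] (F : I → Type)
      [∀ i, Field (F i)] [∀ i, NumberField (F i)] [∀ i, IsCMField (F i)] (π : ∀ i, F i)
      (f : I → ℤ[X]), 0 < a →
      (∀ i, π i * IsCMField.complexConj (F i) (π i) = (p : F i) ^ a) →
      (∀ i, OddAbsolutelyIrreducible (F i)) →
      (∀ i i', i ≠ i' → Pool.Agent.Y137.MV.Unrelated (F i) (F i')) →
      (∀ i, HasOtherSlope p a (π i)) → (∀ i, IsPolyOf (π i) (f i)) →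
      CrysTateFor (GoodRoots p a π) (p ^ a) f) ∧
    (∀ (p : ℕ) [Fact p.Prime] (a : ℕ) (F : Type) [Field F] [NumberField F] (π : F),
      IsOrdinary p a π → weilDeviation p a π = (a * Real.log p) ^ 2 / 4) := by
  refine ⟨?_, ?_⟩
  · intro p _ a I _ F _ _ _ π f ha hw habs hun hns hf
    exact crysTateFor (tateFor_of (Nat.one_lt_pow ha.ne' (Fact.out : p.Prime).one_lt)
      (noRel_good ha hw habs hun hns f hf))
  · intro p _ a F _ _ π h
    exact weilDeviation_ordinary h

end Pool.Agent.Results.MP_60ec62_ag.SmallSlopeDeviation
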